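import Pool.Agent.Q152.QH.Prm

/-! # Sums over primes with quadratic symbols: all scales -/

set_option autoImplicit false

namespace Pool.Agent.Q152.QH

open Finset

open Classical in
theorem tail_sum (Y P : ℕ) (hY : 2 ≤ Y) : ∑ N ∈ Icc Y P, 1 / (N : ℝ) ^ 2 ≤ 1 := by
  have h : ∀ n : ℕ, Y ≤ n + 1 → ∑ N ∈ Icc Y n, 1 / (N : ℝ) ^ 2 ≤ 1 / ((Y : ℝ) - 1) - 1 / n := by
    intro n
    induction n with
    | zero => intro h; omega
    | succ n ih =>
      intro hn
      rcases Nat.lt_or_ge (n + 1) Y with h1 | h1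
      · have : Y = n + 1 + 1 := by omega
        subst this
        rw [Icc_eq_empty (by omega), sum_empty]
        push_cast
        rw [add_sub_cancel_right, sub_self]
      · rw [← insert_Icc_right_eq_Icc_add_one h1, sum_insert (by simp)]
        have h2 := ih h1
        have hn0 : (0 : ℝ) < n := by
          have : 0 < n := by omega
          exact_mod_cast this
        have h3 : 1 / (((n + 1 : ℕ) : ℝ)) ^ 2 ≤ 1 / n - 1 / ((n + 1 : ℕ) : ℝ) := by
          push_cast
          rw [div_sub_div _ _ hn0.ne' (by positivity), div_le_div_iff₀ (by positivity) (by positivity)]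
          nlinarith
        linarith
  rcases Nat.lt_or_ge P Y with h1 | h1
  · rw [Icc_eq_empty (by omega), sum_empty]
    norm_num
  · refine (h P (by omega)).trans ?_
    have h2 : (1 : ℝ) ≤ (Y : ℝ) - 1 := by
      have : (2 : ℝ) ≤ Y := by exact_mod_cast hY
      linarith
    have h3 : 1 / ((Y : ℝ) - 1) ≤ 1 := by
      rw [div_le_one (by linarith)]
      exact h2
    have h4 : (0 : ℝ) ≤ 1 / P := by positivity
    linarith

open Classical in
/-- all scales at once -/
theorem all_scales (d B : ℕ) : ∃ E Y₀ : ℕ, 2 ≤ Y₀ ∧ ∀ (g : ℕ → ℂ) (P Y : ℕ), Y₀ ≤ Y →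
    (((om P).filter fun q => ¬ ∀ N k : ℕ, Y ≤ N → 1 ≤ k → k ≤ N → 4 * N ^ (3 * k) ≤ P →
      GoodAt g d E k N q).card : ℝ) ≤ P / (Y : ℝ) ^ B := by
  obtain ⟨E, N₀, hN₀, H⟩ := one_scale d (B + 3)
  refine ⟨E, max 2 N₀, le_max_left _ _, fun g P Y hY => ?_⟩
  have hY2 : 2 ≤ Y := (le_max_left _ _).trans hY
  have hYN : N₀ ≤ Y := (le_max_right _ _).trans hY
  have hY0 : (0 : ℝ) < Y := by
    have : 0 < Y := by omega
    exact_mod_cast this
  have hP0 : (0 : ℝ) ≤ P := Nat.cast_nonneg _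
  set bad : ℕ × ℕ → Finset ℕ := fun t => (om P).filter fun q =>
    ¬ (4 * t.1 ^ (3 * t.2) ≤ P → GoodAt g d E t.2 t.1 q) with hbad
  set T : Finset (ℕ × ℕ) := (Icc Y P).sigma (fun N => Icc 1 N) |>.map
    (Equiv.sigmaEquivProd ℕ ℕ).toEmbedding with hT
  have hsub : ((om P).filter fun q => ¬ ∀ N k : ℕ, Y ≤ N → 1 ≤ k → k ≤ N → 4 * N ^ (3 * k) ≤ P →
      GoodAt g d E k N q) ⊆ (Icc Y P).biUnion fun N => (Icc 1 N).biUnion fun k => bad (N, k) := by
    intro q hq
    rw [mem_filter] at hq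
    push Not at hq
    obtain ⟨hq1, N, k, h1, h2, h3, h4, h5⟩ := hq
    have hNP : N ≤ P := by
      refine le_trans ?_ h4
      calc N = N ^ 1 := (pow_one _).symm
        _ ≤ N ^ (3 * k) := Nat.pow_le_pow_right (by omega) (by omega)
        _ ≤ 4 * N ^ (3 * k) := by omega
    rw [mem_biUnion]
    refine ⟨N, mem_Icc.2 ⟨h1, hNP⟩, mem_biUnion.2 ⟨k, mem_Icc.2 ⟨h2, h3⟩, ?_⟩⟩
    rw [hbad]
    simp only [mem_filter]
    refine ⟨hq1, fun h => h5 (h h4)⟩
  have hone : ∀ N ∈ Icc Y P, ∀ k ∈ Icc 1 N, ((bad (N, k)).card : ℝ) ≤ P / (N : ℝ) ^ (B + 3) := by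
    intro N hN k hk
    rw [mem_Icc] at hN hk
    by_cases h4 : 4 * N ^ (3 * k) ≤ P
    · refine le_trans ?_ (H g P N k (by omega) hk.1 h4)
      refine Nat.cast_le.2 (card_le_card fun q hq => ?_)
      rw [hbad] at hq
      simp only [mem_filter] at hq ⊢
      exact ⟨hq.1, fun h => hq.2 fun _ => h⟩
    · have : bad (N, k) = ∅ := by
        rw [hbad]
        simp only
        rw [filter_eq_empty_iff]
        intro q _ h
        exact h fun h' => absurd h' h4
      rw [this, card_empty, Nat.cast_zero]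
      positivity
  calc (((om P).filter fun q => ¬ ∀ N k : ℕ, Y ≤ N → 1 ≤ k → k ≤ N → 4 * N ^ (3 * k) ≤ P →
      GoodAt g d E k N q).card : ℝ) ≤
        (((Icc Y P).biUnion fun N => (Icc 1 N).biUnion fun k => bad (N, k)).card : ℝ) :=
          Nat.cast_le.2 (card_le_card hsub)
    _ ≤ ∑ N ∈ Icc Y P, (((Icc 1 N).biUnion fun k => bad (N, k)).card : ℝ) := by
          exact_mod_cast card_biUnion_le
    _ ≤ ∑ N ∈ Icc Y P, P / (Y : ℝ) ^ B * (1 / (N : ℝ) ^ 2) := by
          refine sum_le_sum fun N hN => ?_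
          have hN' := mem_Icc.1 hN
          have hN0 : (0 : ℝ) < N := by
            have : 0 < N := by omega
            exact_mod_cast this
          have h1 : (((Icc 1 N).biUnion fun k => bad (N, k)).card : ℝ) ≤
              ∑ k ∈ Icc 1 N, ((bad (N, k)).card : ℝ) := by
            exact_mod_cast card_biUnion_le
          refine h1.trans ((sum_le_sum fun k hk => hone N hN k hk).trans ?_)
          rw [sum_const, Nat.card_Icc, Nat.add_sub_cancel, nsmul_eq_mul]
          have h2 : (Y : ℝ) ^ B ≤ (N : ℝ) ^ B :=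
            pow_le_pow_left₀ hY0.le (by exact_mod_cast hN'.1) _
          calc (N : ℝ) * (P / (N : ℝ) ^ (B + 3)) = P / (N : ℝ) ^ B * (1 / (N : ℝ) ^ 2) := by
                rw [pow_add]
                field_simp
            _ ≤ P / (Y : ℝ) ^ B * (1 / (N : ℝ) ^ 2) := by
                refine mul_le_mul_of_nonneg_right ?_ (by positivity)
                exact div_le_div_of_nonneg_left hP0 (by positivity) h2
    _ = P / (Y : ℝ) ^ B * ∑ N ∈ Icc Y P, 1 / (N : ℝ) ^ 2 := by rw [mul_sum]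
    _ ≤ P / (Y : ℝ) ^ B * 1 := mul_le_mul_of_nonneg_left (tail_sum Y P hY2) (by positivity)
    _ = P / (Y : ℝ) ^ B := mul_one _

end Pool.Agent.Q152.QH
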