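import Pool.Agent.Q152.QH.Mom

/-! # The number of the moduli with a large weighted sum of quadratic symbols -/

set_option autoImplicit false

namespace Pool.Agent.Q152.QH

open Finset MeasureTheory Pool.Agent.Q163.RP Pool.Agent.Q163.RX Pool.Agent.Q163.GC Pool.Agent.Q163.HC
open Pool.Agent.Q152.QT

open Classical in
/-- the number of the exceptional moduli for one weighted sum -/
theorem exc_one {ι : Type*} (k : ℕ) (hk : 1 ≤ k) (I : Finset ι) (v : ι → ℝ) (M : ι → ℕ)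
    (D : ℝ) (hD1 : 1 ≤ D) (hD : ∀ i ∈ I, (2 * (k : ℝ) - 1) ^ (od (M i)).card ≤ D)
    (hm : ∀ U, (I.filter fun i => od (M i) = U).card ≤ 1) (V : ℝ)
    (hV : ∑ i ∈ I, v i ^ 2 ≤ V) (Z n : ℕ) (hM : ∀ i ∈ I, M i ≠ 0) (hZ : ∀ i ∈ I, M i ≤ Z)
    (hn : I.card ≤ n) (P : ℕ) (hP : 4 * Z ^ (2 * k) * n ^ k ≤ P) (L : ℝ) (hL : 0 < L) :
    (((om P).filter fun q => L * (4 * D * V) < (∑ i ∈ I, v i * (jacobiSym (M i : ℤ) q : ℝ)) ^ 2).card : ℝ) ≤
      P / L ^ k := by
  have hV0 : 0 ≤ V := (sum_nonneg fun _ _ => sq_nonneg _).trans hV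
  have hP0 : (0 : ℝ) ≤ P := Nat.cast_nonneg _
  have hPL : (0 : ℝ) ≤ P / L ^ k := by positivity
  rcases hV0.eq_or_lt with h0 | hVp
  · -- the trivial case
    have hv : ∀ i ∈ I, v i = 0 := by
      intro i hi
      have h1 : ∑ i ∈ I, v i ^ 2 = 0 := le_antisymm (by rw [← h0] at hV; exact hV)
        (sum_nonneg fun _ _ => sq_nonneg _)
      exact pow_eq_zero_iff (two_ne_zero) |>.1 ((sum_eq_zero_iff_of_nonneg fun _ _ => sq_nonneg _).1 h1 i hi)
    have he : ((om P).filter fun q => L * (4 * D * V) <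
        (∑ i ∈ I, v i * (jacobiSym (M i : ℤ) q : ℝ)) ^ 2) = ∅ := by
      rw [filter_eq_empty_iff]
      intro q _
      rw [← h0, sum_eq_zero fun i hi => by rw [hv i hi, zero_mul]]
      norm_num
    rw [he, card_empty, Nat.cast_zero]
    exact hPL
  · have h1 := qmom k hk I v M D hD 1 hm (2 * D * V) (by
      rw [Nat.cast_one, one_mul]
      have : D * ∑ i ∈ I, v i ^ 2 ≤ D * V := mul_le_mul_of_nonneg_left hV (by linarith)
      have : 0 < D * V := by positivity
      linarith) Z hM hZ P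
    have h2 : (∑ i ∈ I, |v i|) ^ 2 ≤ n * V := by
      have h3 : (∑ i ∈ I, |v i|) ^ 2 ≤ (I.card : ℝ) * ∑ i ∈ I, |v i| ^ 2 := sq_sum_le_card_mul_sum_sq
      simp only [sq_abs] at h3
      refine h3.trans (mul_le_mul (by exact_mod_cast hn) hV (sum_nonneg fun _ _ => sq_nonneg _)
        (Nat.cast_nonneg _))
    have h4 : 4 * (Z : ℝ) ^ (2 * k) * (∑ i ∈ I, |v i|) ^ (2 * k) ≤ P * V ^ k := by
      rw [pow_mul (∑ i ∈ I, |v i|)]
      calc 4 * (Z : ℝ) ^ (2 * k) * ((∑ i ∈ I, |v i|) ^ 2) ^ k ≤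
          4 * (Z : ℝ) ^ (2 * k) * (n * V) ^ k := by gcongr
        _ = (4 * (Z : ℝ) ^ (2 * k) * (n : ℝ) ^ k) * V ^ k := by rw [mul_pow]; ring
        _ ≤ P * V ^ k := mul_le_mul_of_nonneg_right (by exact_mod_cast hP) (by positivity)
    have h5 : P * (2 * D * V) ^ k + P * V ^ k ≤ P * (4 * D * V) ^ k := by
      rw [← mul_add]
      refine mul_le_mul_of_nonneg_left ?_ hP0
      have e1 : V ^ k ≤ (2 * D * V) ^ k := by
        refine pow_le_pow_left₀ hV0 ?_ _
        nlinarith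
      have e2 : (4 * D * V) ^ k = 2 ^ k * (2 * D * V) ^ k := by
        rw [← mul_pow]; ring
      have e3 : (2 : ℝ) ≤ 2 ^ k := by
        calc (2 : ℝ) = 2 ^ 1 := (pow_one _).symm
          _ ≤ 2 ^ k := pow_le_pow_right₀ one_le_two hk
      have e4 : 0 ≤ (2 * D * V) ^ k := by positivity
      rw [e2]
      nlinarith
    have h6 : 0 < 4 * D * V := by positivity
    rw [le_div_iff₀ (by positivity)]
    have h7 : (((om P).filter fun q => L * (4 * D * V) <
        (∑ i ∈ I, v i * (jacobiSym (M i : ℤ) q : ℝ)) ^ 2).card : ℝ) * (L * (4 * D * V)) ^ k ≤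
        P * (4 * D * V) ^ k := by
      rw [← nsmul_eq_mul, ← sum_const]
      refine (sum_le_sum (g := fun q => (∑ i ∈ I, v i * (jacobiSym (M i : ℤ) q : ℝ)) ^ (2 * k))
        fun q hq => ?_).trans ?_
      · rw [pow_mul]
        exact pow_le_pow_left₀ (by positivity) (mem_filter.1 hq).2.le _
      · refine (sum_le_sum_of_subset_of_nonneg (filter_subset _ _) fun q _ _ => ?_).trans
          (h1.trans ((add_le_add le_rfl h4).trans h5))
        rw [pow_mul]
        positivity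
    rw [mul_pow, ← mul_assoc] at h7
    exact le_of_mul_le_mul_right h7 (by positivity)

end Pool.Agent.Q152.QH
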