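import Pool.Agent.Q152.QH.Pairs

/-! # The common length of two windows -/

set_option autoImplicit false

namespace Pool.Agent.Q152.QH

open Finset MeasureTheory

/-- the length of the set of the `x` in `[x₁, x₂]` whose window `[x - H/2, x + H/2]` contains `t.1 ≤ t.2` -/
noncomputable def kap (x₁ x₂ H : ℝ) (t : ℕ × ℕ) : ℝ :=
  max (min x₂ ((t.1 : ℝ) + H / 2) - max x₁ ((t.2 : ℝ) - H / 2)) 0

/-- the indicator of the window -/
noncomputable def ind (H : ℝ) (p : ℕ) (x : ℝ) : ℝ := if x - H / 2 ≤ p ∧ (p : ℝ) ≤ x + H / 2 then 1 else 0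

theorem kap_nonneg (x₁ x₂ H : ℝ) (t : ℕ × ℕ) : 0 ≤ kap x₁ x₂ H t := le_max_right _ _

theorem kap_le (x₁ x₂ H : ℝ) (hH : 0 ≤ H) (t : ℕ × ℕ) (ht : t.1 ≤ t.2) : kap x₁ x₂ H t ≤ H := by
  unfold kap
  refine max_le ?_ hH
  have h1 : min x₂ ((t.1 : ℝ) + H / 2) ≤ (t.1 : ℝ) + H / 2 := min_le_right _ _
  have h2 : (t.2 : ℝ) - H / 2 ≤ max x₁ ((t.2 : ℝ) - H / 2) := le_max_right _ _
  have h3 : (t.1 : ℝ) ≤ t.2 := by exact_mod_cast ht
  linarith

theorem kap_pos (x₁ x₂ H : ℝ) (t : ℕ × ℕ) (h : kap x₁ x₂ H t ≠ 0) :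
    x₁ < (t.1 : ℝ) + H / 2 ∧ (t.2 : ℝ) - H / 2 < x₂ ∧ (t.2 : ℝ) < t.1 + H := by
  have h0 : 0 < min x₂ ((t.1 : ℝ) + H / 2) - max x₁ ((t.2 : ℝ) - H / 2) := by
    by_contra hcon
    push Not at hcon
    exact h (max_eq_right hcon)
  have h1 : min x₂ ((t.1 : ℝ) + H / 2) ≤ (t.1 : ℝ) + H / 2 := min_le_right _ _
  have h2 : min x₂ ((t.1 : ℝ) + H / 2) ≤ x₂ := min_le_left _ _
  have h3 : (t.2 : ℝ) - H / 2 ≤ max x₁ ((t.2 : ℝ) - H / 2) := le_max_right _ _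
  have h4 : x₁ ≤ max x₁ ((t.2 : ℝ) - H / 2) := le_max_left _ _
  refine ⟨by linarith, by linarith, by linarith⟩

theorem kap_lip (x₁ x₂ H y₁ y₂ K δ : ℝ) (h1 : |x₁ - y₁| ≤ δ) (h2 : |x₂ - y₂| ≤ δ) (h3 : |H - K| ≤ δ)
    (t : ℕ × ℕ) : |kap x₁ x₂ H t - kap y₁ y₂ K t| ≤ 2 * δ := by
  rw [abs_le] at h1 h2 h3
  unfold kap
  have a : |min x₂ ((t.1 : ℝ) + H / 2) - min y₂ ((t.1 : ℝ) + K / 2)| ≤ δ := by
    rw [abs_le]
    constructor
    · rcases min_choice x₂ ((t.1 : ℝ) + H / 2) with h | h <;> rw [h]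
      · have := min_le_left y₂ ((t.1 : ℝ) + K / 2)
        linarith
      · have := min_le_right y₂ ((t.1 : ℝ) + K / 2)
        linarith
    · rcases min_choice y₂ ((t.1 : ℝ) + K / 2) with h | h <;> rw [h]
      · have := min_le_left x₂ ((t.1 : ℝ) + H / 2)
        linarith
      · have := min_le_right x₂ ((t.1 : ℝ) + H / 2)
        linarith
  have b : |max x₁ ((t.2 : ℝ) - H / 2) - max y₁ ((t.2 : ℝ) - K / 2)| ≤ δ := by
    rw [abs_le]
    constructor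
    · rcases max_choice y₁ ((t.2 : ℝ) - K / 2) with h | h <;> rw [h]
      · have := le_max_left x₁ ((t.2 : ℝ) - H / 2)
        linarith
      · have := le_max_right x₁ ((t.2 : ℝ) - H / 2)
        linarith
    · rcases max_choice x₁ ((t.2 : ℝ) - H / 2) with h | h <;> rw [h]
      · have := le_max_left y₁ ((t.2 : ℝ) - K / 2)
        linarith
      · have := le_max_right y₁ ((t.2 : ℝ) - K / 2)
        linarith
  have c : ∀ u v : ℝ, |max u 0 - max v 0| ≤ |u - v| := fun u v => abs_max_sub_max_le_abs u v 0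
  refine (c _ _).trans ?_
  rw [abs_le] at a b ⊢
  constructor <;> linarith

theorem ind_mul (H : ℝ) (t : ℕ × ℕ) (ht : t.1 ≤ t.2) (x : ℝ) :
    ind H t.1 x * ind H t.2 x =
      (Set.Icc ((t.2 : ℝ) - H / 2) ((t.1 : ℝ) + H / 2)).indicator (fun _ => (1 : ℝ)) x := by
  have h3 : (t.1 : ℝ) ≤ t.2 := by exact_mod_cast ht
  unfold ind
  by_cases h : x ∈ Set.Icc ((t.2 : ℝ) - H / 2) ((t.1 : ℝ) + H / 2)
  · rw [Set.indicator_of_mem h]
    rw [Set.mem_Icc] at h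
    rw [if_pos ⟨by linarith, by linarith⟩, if_pos ⟨by linarith, by linarith⟩, one_mul]
  · rw [Set.indicator_of_notMem h]
    by_cases h1 : x - H / 2 ≤ t.1 ∧ (t.1 : ℝ) ≤ x + H / 2
    · have h2 : ¬ (x - H / 2 ≤ t.2 ∧ (t.2 : ℝ) ≤ x + H / 2) := by
        rintro ⟨_, h4⟩
        exact h ⟨by linarith, by linarith [h1.1]⟩
      rw [if_neg h2, mul_zero]
    · rw [if_neg h1, zero_mul]

theorem ind_int (H : ℝ) (t : ℕ × ℕ) (ht : t.1 ≤ t.2) (x₁ x₂ : ℝ) :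
    IntervalIntegrable (fun x => ind H t.1 x * ind H t.2 x) volume x₁ x₂ := by
  have h : (fun x => ind H t.1 x * ind H t.2 x) =
      (Set.Icc ((t.2 : ℝ) - H / 2) ((t.1 : ℝ) + H / 2)).indicator (fun _ => (1 : ℝ)) := by
    funext x
    exact ind_mul H t ht x
  have hc : IntegrableOn (fun _ : ℝ => (1 : ℝ)) (Set.uIoc x₁ x₂) volume :=
    intervalIntegrable_iff.1 intervalIntegrable_const
  rw [h, intervalIntegrable_iff]
  exact Integrable.indicator hc measurableSet_Icc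

theorem ind_integral (H : ℝ) (t : ℕ × ℕ) (ht : t.1 ≤ t.2) (x₁ x₂ : ℝ) (hx : x₁ ≤ x₂) :
    ∫ x in x₁..x₂, ind H t.1 x * ind H t.2 x = kap x₁ x₂ H t := by
  have h : (fun x => ind H t.1 x * ind H t.2 x) =
      (Set.Icc ((t.2 : ℝ) - H / 2) ((t.1 : ℝ) + H / 2)).indicator (fun _ => (1 : ℝ)) := by
    funext x
    exact ind_mul H t ht x
  rw [intervalIntegral.integral_of_le hx, h, setIntegral_indicator measurableSet_Icc, setIntegral_const,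
    smul_eq_mul, mul_one]
  have h1 : (Set.Ioc x₁ x₂ ∩ Set.Icc ((t.2 : ℝ) - H / 2) ((t.1 : ℝ) + H / 2) : Set ℝ) =ᵐ[volume]
      (Set.Ioc x₁ x₂ ∩ Set.Ioc ((t.2 : ℝ) - H / 2) ((t.1 : ℝ) + H / 2) : Set ℝ) :=
    Filter.EventuallyEq.inter Filter.EventuallyEq.rfl Ioc_ae_eq_Icc.symm
  rw [measureReal_congr h1, Set.Ioc_inter_Ioc, Real.volume_real_Ioc]
  unfold kap
  rfl

end Pool.Agent.Q152.QH
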