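import Pool.Agent.Q152.QT.Stm
import Pool.Agent.Q14.QT.QT5
import Pool.Agent.Q163.HC.Num

/-! # High moments over the odd moduli of weighted sums of quadratic symbols

The moment of order `2 k` over the odd `q ≤ P` of `∑ v_i (M_i / q)` is at most `P` times the moment of the sum of the
`|v_i|` times the values at `M_i` of a random completely multiplicative function, up to the non-square tuples. -/

set_option autoImplicit false

namespace Pool.Agent.Q152.QH

open Finset MeasureTheory Pool.Agent.Q163.RP Pool.Agent.Q163.RX Pool.Agent.Q163.GC Pool.Agent.Q163.HC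
open Pool.Agent.Q152.QT

/-- the odd moduli up to `P` -/
def om (P : ℕ) : Finset ℕ := (range (P + 1)).filter fun m => Odd m

lemma om_card (P : ℕ) : (om P).card ≤ P := by
  have h1 : om P ⊆ Icc 1 P := by
    intro m hm
    rw [om, mem_filter, mem_range] at hm
    rw [mem_Icc]
    obtain ⟨j, hj⟩ := hm.2
    omega
  have h2 := card_le_card h1
  rwa [Nat.card_Icc, Nat.add_sub_cancel] at h2

lemma ch_prod {ι : Type*} (ω : ℕ → Bool) (s : Finset ι) (f : ι → ℕ) (hf : ∀ i ∈ s, f i ≠ 0) :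
    ch ω (∏ i ∈ s, f i) = ∏ i ∈ s, ch ω (f i) := by
  classical
  induction s using Finset.induction_on with
  | empty =>
    simp only [prod_empty]
    unfold ch mult
    simp
  | insert a s ha ih =>
    rw [prod_insert ha, prod_insert ha, ch_mul ω (hf a (mem_insert_self _ _))
      (prod_ne_zero_iff.2 fun i hi => hf i (mem_insert_of_mem hi)),
      ih fun i hi => hf i (mem_insert_of_mem hi)]

lemma jac_prod {ι : Type*} (s : Finset ι) (t : ι → ℕ) (m : ℕ) :
    jacobiSym ((∏ i ∈ s, t i : ℕ) : ℤ) m = ∏ i ∈ s, jacobiSym (t i : ℤ) m := by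
  classical
  induction s using Finset.induction_on with
  | empty => simp [jacobiSym.one_left]
  | insert a s ha ih =>
    rw [prod_insert ha, prod_insert ha, Nat.cast_mul, jacobiSym.mul_left, ih]

lemma abs_jac (a : ℤ) (m : ℕ) : |(jacobiSym a m : ℝ)| ≤ 1 := by
  rcases jacobiSym.trichotomy a m with h | h | h <;> rw [h] <;> simp

/-- the tuple expansion of a power -/
lemma pow_expand {ι : Type*} [DecidableEq ι] (I : Finset ι) (f : ι → ℝ) (n : ℕ) :
    (∑ i ∈ I, f i) ^ n = ∑ t ∈ Fintype.piFinset (fun _ : Fin n => I), ∏ j, f (t j) := by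
  have h := Finset.prod_univ_sum (fun _ : Fin n => I) (fun _ i => f i)
  rw [prod_const, card_univ, Fintype.card_fin] at h
  exact h

/-- the mean over the signs, exactly -/
lemma mean_pow {ι : Type*} [DecidableEq ι] (I : Finset ι) (v : ι → ℝ) (M : ι → ℕ) (hM : ∀ i ∈ I, M i ≠ 0)
    (n : ℕ) : ∫ ω, (∑ i ∈ I, v i * ch ω (M i)) ^ n ∂cm =
      ∑ t ∈ (Fintype.piFinset (fun _ : Fin n => I)).filter (fun t => IsSquare (∏ j, M (t j))),
        ∏ j, v (t j) := by
  classical
  have e1 : ∀ ω, (∑ i ∈ I, v i * ch ω (M i)) ^ n =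
      ∑ t ∈ Fintype.piFinset (fun _ : Fin n => I), (∏ j, v (t j)) * ch ω (∏ j, M (t j)) := by
    intro ω
    rw [pow_expand]
    refine sum_congr rfl fun t ht => ?_
    rw [Fintype.mem_piFinset] at ht
    rw [prod_mul_distrib, ch_prod ω _ _ fun j _ => hM _ (ht j)]
  simp_rw [e1]
  rw [integral_finsetSum _ fun x _ => (int_ch _).const_mul _]
  simp_rw [integral_const_mul]
  rw [sum_filter]
  refine sum_congr rfl fun t ht => ?_
  rw [Fintype.mem_piFinset] at ht
  have h0 : ∏ j, M (t j) ≠ 0 := prod_ne_zero_iff.2 fun j _ => hM _ (ht j)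
  split_ifs with h
  · have h1 : ∀ ω, ch ω (∏ j, M (t j)) = 1 := by
      intro ω
      obtain ⟨r, hr⟩ := h
      have hr0 : r ≠ 0 := by
        rintro rfl
        exact h0 (by rw [hr, mul_zero])
      rw [hr, ch_mul ω hr0 hr0, ← sq, ch_sq]
    simp_rw [h1]
    simp
  · rw [mean_ch h0 h, mul_zero]

/-- **The moments over the odd moduli.** -/
theorem qmom {ι : Type*} (k : ℕ) (hk : 1 ≤ k) (I : Finset ι) (v : ι → ℝ) (M : ι → ℕ)
    (D : ℝ) (hD : ∀ i ∈ I, (2 * (k : ℝ) - 1) ^ (od (M i)).card ≤ D) (m : ℕ)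
    (hm : ∀ U, (I.filter fun i => od (M i) = U).card ≤ m) (X : ℝ)
    (hX : D * (m * ∑ i ∈ I, v i ^ 2) < X) (Z : ℕ) (hM : ∀ i ∈ I, M i ≠ 0) (hZ : ∀ i ∈ I, M i ≤ Z) (P : ℕ) :
    ∑ q ∈ om P, (∑ i ∈ I, v i * (jacobiSym (M i : ℤ) q : ℝ)) ^ (2 * k) ≤
      P * X ^ k + 4 * (Z : ℝ) ^ (2 * k) * (∑ i ∈ I, |v i|) ^ (2 * k) := by
  classical
  set T := Fintype.piFinset (fun _ : Fin (2 * k) => I) with hT
  have hP : ((om P).card : ℝ) ≤ P := by exact_mod_cast om_card P
  -- expansion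
  have e1 : ∑ q ∈ om P, (∑ i ∈ I, v i * (jacobiSym (M i : ℤ) q : ℝ)) ^ (2 * k) =
      ∑ t ∈ T, (∏ j, v (t j)) * ∑ q ∈ om P, (jacobiSym ((∏ j, M (t j) : ℕ) : ℤ) q : ℝ) := by
    simp_rw [mul_sum]
    rw [sum_comm]
    refine sum_congr rfl fun q _ => ?_
    rw [pow_expand]
    refine sum_congr rfl fun t _ => ?_
    rw [prod_mul_distrib, jac_prod]
    push_cast
    rfl
  rw [e1, ← sum_filter_add_sum_filter_not T fun t => IsSquare (∏ j, M (t j))]
  refine add_le_add ?_ ?_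
  · -- square tuples
    have h1 : ∑ t ∈ T with IsSquare (∏ j, M (t j)), ∏ j, |v (t j)| ≤ X ^ k := by
      rw [← mean_pow I (fun i => |v i|) M hM (2 * k)]
      refine mom k hk I (fun i => |v i|) M D hD m hm X ?_
      simpa only [sq_abs] using hX
    calc ∑ t ∈ T with IsSquare (∏ j, M (t j)),
          (∏ j, v (t j)) * ∑ q ∈ om P, (jacobiSym ((∏ j, M (t j) : ℕ) : ℤ) q : ℝ) ≤
        ∑ t ∈ T with IsSquare (∏ j, M (t j)), (∏ j, |v (t j)|) * P := by
          refine sum_le_sum fun t _ => (le_abs_self _).trans ?_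
          rw [abs_mul, abs_prod]
          refine mul_le_mul_of_nonneg_left ?_ (prod_nonneg fun _ _ => abs_nonneg _)
          refine (abs_sum_le_sum_abs _ _).trans ((sum_le_sum fun q _ => abs_jac _ q).trans ?_)
          rw [sum_const, nsmul_eq_mul, mul_one]
          exact hP
      _ = P * ∑ t ∈ T with IsSquare (∏ j, M (t j)), ∏ j, |v (t j)| := by
          rw [← sum_mul, mul_comm]
      _ ≤ P * X ^ k := mul_le_mul_of_nonneg_left h1 (Nat.cast_nonneg _)
  · -- the others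
    have h2 : ∀ t ∈ T.filter (fun t => ¬ IsSquare (∏ j, M (t j))),
        (∏ j, v (t j)) * ∑ q ∈ om P, (jacobiSym ((∏ j, M (t j) : ℕ) : ℤ) q : ℝ) ≤
          (∏ j, |v (t j)|) * (4 * (Z : ℝ) ^ (2 * k)) := by
      intro t ht
      rw [mem_filter, hT, Fintype.mem_piFinset] at ht
      refine (le_abs_self _).trans ?_
      rw [abs_mul, abs_prod]
      refine mul_le_mul_of_nonneg_left ?_ (prod_nonneg fun _ _ => abs_nonneg _)
      have h0 : 0 < ∏ j, M (t j) := Nat.pos_of_ne_zero (prod_ne_zero_iff.2 fun j _ => hM _ (ht.1 j))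
      have h3 := Pool.Agent.Q14.QT.t_Char (∏ j, M (t j)) h0 ht.2 P
      have h4 : ∏ j, M (t j) ≤ Z ^ (2 * k) := by
        refine (prod_le_prod' fun j _ => hZ _ (ht.1 j)).trans ?_
        rw [prod_const, card_univ, Fintype.card_fin]
      have h5 : |∑ q ∈ om P, (jacobiSym ((∏ j, M (t j) : ℕ) : ℤ) q : ℝ)| ≤
          4 * ((∏ j, M (t j) : ℕ) : ℝ) := by
        have h6 := (Int.cast_le (R := ℝ)).2 h3
        push_cast at h6 ⊢
        exact h6
      have h7 : ((∏ j, M (t j) : ℕ) : ℝ) ≤ (Z : ℝ) ^ (2 * k) := by exact_mod_cast h4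
      linarith
    calc ∑ t ∈ T with ¬ IsSquare (∏ j, M (t j)),
          (∏ j, v (t j)) * ∑ q ∈ om P, (jacobiSym ((∏ j, M (t j) : ℕ) : ℤ) q : ℝ) ≤
        ∑ t ∈ T with ¬ IsSquare (∏ j, M (t j)), (∏ j, |v (t j)|) * (4 * (Z : ℝ) ^ (2 * k)) :=
          sum_le_sum h2
      _ ≤ ∑ t ∈ T, (∏ j, |v (t j)|) * (4 * (Z : ℝ) ^ (2 * k)) :=
          sum_le_sum_of_subset_of_nonneg (filter_subset _ _) fun t _ _ =>
            mul_nonneg (prod_nonneg fun _ _ => abs_nonneg _) (by positivity)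
      _ = 4 * (Z : ℝ) ^ (2 * k) * (∑ i ∈ I, |v i|) ^ (2 * k) := by
          rw [← sum_mul, pow_expand I (fun i => |v i|), mul_comm]

end Pool.Agent.Q152.QH
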