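import Pool.Agent.Q152.QH.Scales

/-! # Weighted sums of quadratic symbols over pairs of primes -/

set_option autoImplicit false

namespace Pool.Agent.Q152.QH

open Finset Pool.Agent.Q163.RP Pool.Agent.Q163.RX Pool.Agent.Q163.GC Pool.Agent.Q163.HC
open Pool.Agent.Q152.QT

lemma od_pair {p r : ℕ} (hp : p.Prime) (hr : r.Prime) (h : p < r) : od (p * r) = {p, r} := by
  have hne : p ≠ r := h.ne
  have hpr : ¬ p ∣ r := fun hd => hne ((Nat.prime_dvd_prime_iff_eq hp hr).1 hd)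
  have hrp : ¬ r ∣ p := fun hd => hne ((Nat.prime_dvd_prime_iff_eq hr hp).1 hd).symm
  unfold od
  rw [Nat.primeFactors_mul hp.ne_zero hr.ne_zero, hp.primeFactors, hr.primeFactors]
  ext x
  rw [mem_filter, mem_union, mem_singleton, mem_singleton, mem_insert, mem_singleton]
  constructor
  · exact fun h => h.1
  · intro hx
    refine ⟨hx, ?_⟩
    rw [Nat.factorization_mul hp.ne_zero hr.ne_zero, Finsupp.add_apply]
    rcases hx with rfl | rfl
    · rw [hp.factorization_self, Nat.factorization_eq_zero_of_not_dvd hpr]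
      exact odd_one
    · rw [hr.factorization_self, Nat.factorization_eq_zero_of_not_dvd hrp]
      exact odd_one

open Classical in
/-- one family of pairs -/
theorem exc_pair (k N P : ℕ) (hk : 1 ≤ k) (I : Finset (ℕ × ℕ)) (v : ℕ × ℕ → ℝ)
    (hI : ∀ x ∈ I, x.1.Prime ∧ x.2.Prime ∧ x.1 < x.2 ∧ x.2 ≤ N) (hP : 4 * N ^ (6 * k) ≤ P)
    (L : ℝ) (hL : 0 < L) :
    (((om P).filter fun q => L * (16 * (k : ℝ) ^ 2 * ∑ x ∈ I, v x ^ 2) <
      (∑ x ∈ I, v x * (jacobiSym ((x.1 * x.2 : ℕ) : ℤ) q : ℝ)) ^ 2).card : ℝ) ≤ P / L ^ k := by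
  have hkR : (1 : ℝ) ≤ k := by exact_mod_cast hk
  have h := exc_one k hk I v (fun x => x.1 * x.2) (4 * (k : ℝ) ^ 2) (by nlinarith)
    (fun x hx => by
      obtain ⟨h1, h2, h3, _⟩ := hI x hx
      have hc : ({x.1, x.2} : Finset ℕ).card = 2 := card_pair h3.ne
      rw [od_pair h1 h2 h3, hc]
      nlinarith)
    (fun U => by
      rw [card_le_one]
      intro x hx y hy
      rw [mem_filter] at hx hy
      obtain ⟨a1, a2, a3, _⟩ := hI x hx.1
      obtain ⟨b1, b2, b3, _⟩ := hI y hy.1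
      have h1 := hx.2
      rw [← hy.2, od_pair a1 a2 a3, od_pair b1 b2 b3] at h1
      have c1 : x.1 ∈ ({y.1, y.2} : Finset ℕ) := by rw [← h1]; simp
      have c2 : x.2 ∈ ({y.1, y.2} : Finset ℕ) := by rw [← h1]; simp
      have c3 : y.1 ∈ ({x.1, x.2} : Finset ℕ) := by rw [h1]; simp
      rw [mem_insert, mem_singleton] at c1 c2 c3
      ext <;> omega)
    (∑ x ∈ I, v x ^ 2) le_rfl (N ^ 2) (N ^ 2)
    (fun x hx => Nat.mul_ne_zero (hI x hx).1.ne_zero (hI x hx).2.1.ne_zero)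
    (fun x hx => by
      obtain ⟨_, _, h3, h4⟩ := hI x hx
      rw [sq]
      exact Nat.mul_le_mul (by omega) h4)
    (by
      have hsub : I ⊆ (Icc 1 N) ×ˢ (Icc 1 N) := by
        intro x hx
        obtain ⟨h1, h2, h3, h4⟩ := hI x hx
        rw [mem_product, mem_Icc, mem_Icc]
        have := h1.pos
        omega
      refine (card_le_card hsub).trans ?_
      rw [card_product, Nat.card_Icc, Nat.add_sub_cancel, sq]) P (by
      refine le_trans (le_of_eq ?_) hP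
      rw [← pow_mul, ← pow_mul, mul_assoc, ← pow_add]
      congr 2
      ring) L hL
  refine le_trans (le_of_eq ?_) h
  congr 2
  ext q
  rw [show 4 * (4 * (k : ℝ) ^ 2) * (∑ x ∈ I, v x ^ 2) = 16 * (k : ℝ) ^ 2 * ∑ x ∈ I, v x ^ 2 by ring]

open Classical in
/-- a family of polynomial size -/
theorem fam_pair (C D B : ℕ) : ∃ E N₀ : ℕ, ∀ {α : Type} (T : Finset α) (I : α → Finset (ℕ × ℕ))
    (v : α → ℕ × ℕ → ℝ) (P N k : ℕ), N₀ ≤ N → 1 ≤ k → T.card ≤ C * N ^ D →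
    (∀ t ∈ T, ∀ x ∈ I t, x.1.Prime ∧ x.2.Prime ∧ x.1 < x.2 ∧ x.2 ≤ N) → 4 * N ^ (6 * k) ≤ P →
    (((om P).filter fun q => ¬ ∀ t ∈ T, (∑ x ∈ I t, v t x * (jacobiSym ((x.1 * x.2 : ℕ) : ℤ) q : ℝ)) ^ 2 ≤
      (N : ℝ) ^ ((E : ℝ) / k) * (16 * (k : ℝ) ^ 2 * ∑ x ∈ I t, v t x ^ 2)).card : ℝ) ≤ P / (N : ℝ) ^ B := by
  refine ⟨D + B + 1, max 1 C, ?_⟩
  intro α T I v P N k hN hk hT hI hP
  have hN1 : 1 ≤ N := (le_max_left _ _).trans hN
  have hNC : C ≤ N := (le_max_right _ _).trans hN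
  have hNR : (1 : ℝ) ≤ N := by exact_mod_cast hN1
  have hN0 : (0 : ℝ) < N := by linarith
  have hkR : (1 : ℝ) ≤ k := by exact_mod_cast hk
  have hP0 : (0 : ℝ) ≤ P := Nat.cast_nonneg _
  set E : ℕ := D + B + 1 with hE
  set L : ℝ := (N : ℝ) ^ ((E : ℝ) / k) with hL
  have hL0 : 0 < L := Real.rpow_pos_of_pos hN0 _
  have hLk : L ^ k = (N : ℝ) ^ E := by
    rw [hL, ← Real.rpow_natCast, ← Real.rpow_mul hN0.le, div_mul_cancel₀ _ (by positivity), Real.rpow_natCast]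
  set bad : α → Finset ℕ := fun t => (om P).filter fun q =>
    L * (16 * (k : ℝ) ^ 2 * ∑ x ∈ I t, v t x ^ 2) <
      (∑ x ∈ I t, v t x * (jacobiSym ((x.1 * x.2 : ℕ) : ℤ) q : ℝ)) ^ 2 with hbad
  have hsub : ((om P).filter fun q => ¬ ∀ t ∈ T,
      (∑ x ∈ I t, v t x * (jacobiSym ((x.1 * x.2 : ℕ) : ℤ) q : ℝ)) ^ 2 ≤
      L * (16 * (k : ℝ) ^ 2 * ∑ x ∈ I t, v t x ^ 2)) ⊆ T.biUnion bad := by
    intro q hq
    rw [mem_filter] at hq
    obtain ⟨h1, h2⟩ := hq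
    push Not at h2
    obtain ⟨t, ht, h3⟩ := h2
    exact mem_biUnion.2 ⟨t, ht, mem_filter.2 ⟨h1, h3⟩⟩
  have h1 : ((T.biUnion bad).card : ℝ) ≤ T.card * (P / (N : ℝ) ^ E) := by
    have h1 : ((T.biUnion bad).card : ℝ) ≤ ∑ t ∈ T, ((bad t).card : ℝ) := by
      exact_mod_cast card_biUnion_le
    refine h1.trans ?_
    rw [← nsmul_eq_mul, ← sum_const]
    refine sum_le_sum fun t ht => ?_
    have h2 := exc_pair k N P hk (I t) (v t) (hI t ht) hP L hL0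
    rwa [hLk] at h2
  refine (Nat.cast_le.2 (card_le_card hsub)).trans (h1.trans ?_)
  have h2 : (T.card : ℝ) ≤ N * (N : ℝ) ^ D := by
    have : T.card ≤ N * N ^ D := hT.trans (Nat.mul_le_mul_right _ hNC)
    exact_mod_cast this
  calc (T.card : ℝ) * (P / (N : ℝ) ^ E) ≤ N * (N : ℝ) ^ D * (P / (N : ℝ) ^ E) :=
        mul_le_mul_of_nonneg_right h2 (by positivity)
    _ = P / (N : ℝ) ^ B := by
        rw [hE, pow_succ, pow_add]
        field_simp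

/-- a symmetric double sum is its diagonal and twice the part above the diagonal -/
theorem sym_split (A : Finset ℕ) (κ : ℕ → ℕ → ℝ) (hκ : ∀ x y, κ x y = κ y x) (f : ℕ → ℂ) :
    ∑ x ∈ A, ∑ y ∈ A, κ x y * (f x * (starRingEnd ℂ) (f y)).re =
      ∑ x ∈ A, κ x x * ‖f x‖ ^ 2 +
        ∑ t ∈ (A ×ˢ A).filter (fun t => t.1 < t.2), 2 * κ t.1 t.2 * (f t.1 * (starRingEnd ℂ) (f t.2)).re := by
  have hsym : ∀ x y, κ x y * (f x * (starRingEnd ℂ) (f y)).re = κ y x * (f y * (starRingEnd ℂ) (f x)).re := by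
    intro x y
    rw [hκ x y]
    congr 1
    rw [← Complex.conj_re (f x * (starRingEnd ℂ) (f y)), map_mul, Complex.conj_conj, mul_comm]
  have hdiag : ∀ x, κ x x * (f x * (starRingEnd ℂ) (f x)).re = κ x x * ‖f x‖ ^ 2 := by
    intro x
    rw [Complex.mul_conj, Complex.ofReal_re, Complex.normSq_eq_norm_sq]
  set F : ℕ × ℕ → ℝ := fun t => κ t.1 t.2 * (f t.1 * (starRingEnd ℂ) (f t.2)).re with hF
  have h1 : ∑ x ∈ A, ∑ y ∈ A, κ x y * (f x * (starRingEnd ℂ) (f y)).re = ∑ t ∈ A ×ˢ A, F t := by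
    rw [sum_product]
  have h2 : ∑ t ∈ A ×ˢ A, F t = ∑ t ∈ (A ×ˢ A).filter (fun t => t.1 < t.2), F t +
      ∑ t ∈ (A ×ˢ A).filter (fun t => ¬ t.1 < t.2), F t := (sum_filter_add_sum_filter_not _ _ _).symm
  have h3 : ∑ t ∈ (A ×ˢ A).filter (fun t => ¬ t.1 < t.2), F t =
      ∑ t ∈ (A ×ˢ A).filter (fun t => t.2 < t.1), F t + ∑ x ∈ A, F (x, x) := by
    have e1 : (A ×ˢ A).filter (fun t => ¬ t.1 < t.2) =
        (A ×ˢ A).filter (fun t => t.2 < t.1) ∪ A.image (fun x => (x, x)) := by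
      ext ⟨x, y⟩
      simp only [mem_filter, mem_product, mem_union, mem_image, Prod.mk.injEq]
      constructor
      · rintro ⟨⟨hx, hy⟩, h⟩
        rcases Nat.lt_or_ge y x with h' | h'
        · exact Or.inl ⟨⟨hx, hy⟩, h'⟩
        · exact Or.inr ⟨x, hx, rfl, by omega⟩
      · rintro (⟨⟨hx, hy⟩, h⟩ | ⟨z, hz, rfl, rfl⟩)
        · exact ⟨⟨hx, hy⟩, by omega⟩
        · exact ⟨⟨hz, hz⟩, lt_irrefl _⟩
    rw [e1, sum_union, sum_image]
    · intro x _ y _ h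
      exact (Prod.mk.injEq _ _ _ _ ▸ h).1
    · rw [disjoint_left]
      intro t ht ht'
      rw [mem_filter] at ht
      rw [mem_image] at ht'
      obtain ⟨x, _, rfl⟩ := ht'
      exact lt_irrefl _ ht.2
  have h4 : ∑ t ∈ (A ×ˢ A).filter (fun t => t.2 < t.1), F t = ∑ t ∈ (A ×ˢ A).filter (fun t => t.1 < t.2), F t := by
    refine sum_nbij' Prod.swap Prod.swap ?_ ?_ ?_ ?_ ?_
    · intro t ht
      rw [mem_filter, mem_product] at ht ⊢
      exact ⟨⟨ht.1.2, ht.1.1⟩, ht.2⟩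
    · intro t ht
      rw [mem_filter, mem_product] at ht ⊢
      exact ⟨⟨ht.1.2, ht.1.1⟩, ht.2⟩
    · intro t _
      rfl
    · intro t _
      rfl
    · intro t _
      exact hsym t.1 t.2
  rw [h1, h2, h3, h4]
  have h5 : ∑ x ∈ A, F (x, x) = ∑ x ∈ A, κ x x * ‖f x‖ ^ 2 := sum_congr rfl fun x _ => hdiag x
  rw [h5]
  have h6 : ∑ t ∈ (A ×ˢ A).filter (fun t => t.1 < t.2), 2 * κ t.1 t.2 * (f t.1 * (starRingEnd ℂ) (f t.2)).re =
      ∑ t ∈ (A ×ˢ A).filter (fun t => t.1 < t.2), F t + ∑ t ∈ (A ×ˢ A).filter (fun t => t.1 < t.2), F t := by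
    rw [← sum_add_distrib]
    refine sum_congr rfl fun t _ => ?_
    rw [hF]
    ring
  rw [h6]
  ring

end Pool.Agent.Q152.QH
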