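import Pool.Agent.Q152.QH.Exc
import Pool.Agent.Q152.QT.Poly
import Pool.Agent.Q26.QT.Net

/-! # Sums over the primes in progressions and intervals with polynomial phases: one scale -/

set_option autoImplicit false

namespace Pool.Agent.Q152.QH

open Finset MeasureTheory Pool.Agent.Q163.RP Pool.Agent.Q163.RX Pool.Agent.Q163.GC Pool.Agent.Q163.HC
open Pool.Agent.Q152.QT

/-- the primes `p ≡ a` modulo `b` in `(u, v]` -/
def pr (u v b a : ℕ) : Finset ℕ := (Ioc u v).filter fun p => p.Prime ∧ p % b = a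

/-- the weighted sum -/
noncomputable def Sg (g : ℕ → ℂ) (F : Polynomial ℝ) (q u v b a : ℕ) : ℂ :=
  ∑ p ∈ pr u v b a, g p * ((jacobiSym (p : ℤ) q : ℤ) : ℂ) * eF F p

/-- the sum of the squares of the weights -/
noncomputable def Vg (g : ℕ → ℂ) (u v b a : ℕ) : ℝ := ∑ p ∈ pr u v b a, ‖g p‖ ^ 2

/-- the bound at the scale `N` with the parameter `k` -/
def GoodAt (g : ℕ → ℂ) (d E k N q : ℕ) : Prop :=
  ∀ u v b a : ℕ, v ≤ N → b ≤ N → ∀ F : Polynomial ℝ, F.natDegree ≤ d →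
    ‖Sg g F q u v b a‖ ≤ 7 * √(k * (N : ℝ) ^ ((E : ℝ) / k) * Vg g u v b a)

lemma od_prime {p : ℕ} (hp : p.Prime) : od p = {p} := by
  unfold od
  rw [hp.primeFactors]
  ext x
  rw [mem_filter, mem_singleton]
  constructor
  · exact fun h => h.1
  · rintro rfl
    refine ⟨rfl, ?_⟩
    rw [hp.factorization_self]
    exact odd_one

lemma mod_cases (N b a : ℕ) (hb : b ≤ N) (p : ℕ) (hp : p ≤ N) : p % b = a → a ≤ N := by
  rintro rfl
  exact (Nat.mod_le _ _).trans hp

open Classical in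
/-- the real sums -/
theorem exc_real (g : ℕ → ℂ) (φ : ℕ → ℂ) (hφ : ∀ n, ‖φ n‖ ≤ 1) (re : ℂ → ℝ) (hre : ∀ z, |re z| ≤ ‖z‖)
    (k N P u v b a : ℕ) (hk : 1 ≤ k) (hN : 1 ≤ N) (hv : v ≤ N) (hP : 4 * N ^ (3 * k) ≤ P) (L : ℝ) (hL : 0 < L) :
    (((om P).filter fun q => L * (8 * k * Vg g u v b a) <
      (∑ p ∈ pr u v b a, re (g p * φ p) * (jacobiSym (p : ℤ) q : ℝ)) ^ 2).card : ℝ) ≤ P / L ^ k := by
  have hkR : (1 : ℝ) ≤ k := by exact_mod_cast hk
  have h := exc_one k hk (pr u v b a) (fun p => re (g p * φ p)) (fun p => p) (2 * k) (by linarith)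
    (fun p hp => by
      rw [od_prime (mem_filter.1 hp).2.1, card_singleton, pow_one]
      linarith)
    (fun U => by
      rw [card_le_one]
      intro x hx y hy
      rw [mem_filter] at hx hy
      have h1 := hx.2
      rw [← hy.2, od_prime (mem_filter.1 hx.1).2.1, od_prime (mem_filter.1 hy.1).2.1] at h1
      exact singleton_injective h1)
    (Vg g u v b a) (by
      unfold Vg
      refine sum_le_sum fun p _ => ?_
      have h1 : |re (g p * φ p)| ≤ ‖g p‖ := by
        refine (hre _).trans ?_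
        rw [norm_mul]
        exact mul_le_of_le_one_right (norm_nonneg _) (hφ p)
      rw [← sq_abs]
      exact pow_le_pow_left₀ (abs_nonneg _) h1 2)
    N N (fun p hp => (mem_filter.1 hp).2.1.ne_zero) (fun p hp => (mem_Ioc.1 (mem_filter.1 hp).1).2.trans hv)
    (by
      refine (card_filter_le _ _).trans ?_
      rw [Nat.card_Ioc]
      omega) P (by
      refine le_trans (le_of_eq ?_) hP
      rw [mul_assoc, ← pow_add]
      congr 2
      ring) L hL
  refine le_trans (le_of_eq ?_) h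
  congr 2
  ext q
  rw [show 4 * (2 * (k : ℝ)) * Vg g u v b a = 8 * k * Vg g u v b a by ring]

open Classical in
/-- one scale -/
theorem one_scale (d B : ℕ) : ∃ E N₀ : ℕ, 1 ≤ N₀ ∧ ∀ (g : ℕ → ℂ) (P N k : ℕ), N₀ ≤ N → 1 ≤ k →
    4 * N ^ (3 * k) ≤ P → (((om P).filter fun q => ¬ GoodAt g d E k N q).card : ℝ) ≤ P / (N : ℝ) ^ B := by
  obtain ⟨C, D, HN⟩ := Pool.Agent.Q26.QT.t_Net d
  refine ⟨D + B + 5, max 1 (32 * C), le_max_left _ _, fun g P N k hN hk hP => ?_⟩
  have hN1 : 1 ≤ N := (le_max_left _ _).trans hN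
  have hNC : 32 * C ≤ N := (le_max_right _ _).trans hN
  have hNR : (1 : ℝ) ≤ N := by exact_mod_cast hN1
  have hN0 : (0 : ℝ) < N := by linarith
  have hkR : (1 : ℝ) ≤ k := by exact_mod_cast hk
  have hP0 : (0 : ℝ) ≤ P := Nat.cast_nonneg _
  obtain ⟨Φ, hΦ1, hΦ2, hΦ3⟩ := HN N hN1
  set E : ℕ := D + B + 5 with hE
  set L : ℝ := (N : ℝ) ^ ((E : ℝ) / k) with hL
  have hL0 : 0 < L := Real.rpow_pos_of_pos hN0 _
  have hLk : L ^ k = (N : ℝ) ^ E := by
    rw [hL, ← Real.rpow_natCast, ← Real.rpow_mul hN0.le, div_mul_cancel₀ _ (by positivity), Real.rpow_natCast]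
  have hL1 : 1 ≤ L := Real.one_le_rpow hNR (by positivity)
  set T : Finset ((ℕ × ℕ × ℕ × ℕ) × (ℕ → ℂ)) :=
    (range (N + 1) ×ˢ range (N + 1) ×ˢ range (N + 1) ×ˢ range (N + 1)) ×ˢ Φ with hT
  set bad : (ℂ → ℝ) → ((ℕ × ℕ × ℕ × ℕ) × (ℕ → ℂ)) → Finset ℕ := fun re t => (om P).filter fun q =>
    L * (8 * k * Vg g t.1.1 t.1.2.1 t.1.2.2.1 t.1.2.2.2) <
      (∑ p ∈ pr t.1.1 t.1.2.1 t.1.2.2.1 t.1.2.2.2, re (g p * t.2 p) * (jacobiSym (p : ℤ) q : ℝ)) ^ 2 with hbad
  have hsub : ((om P).filter fun q => ¬ GoodAt g d E k N q) ⊆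
      T.biUnion (bad Complex.re) ∪ T.biUnion (bad Complex.im) := by
    intro q hq
    rw [mem_filter] at hq
    by_contra hcon
    rw [mem_union, not_or, mem_biUnion, mem_biUnion] at hcon
    refine hq.2 fun u v b a hv hb F hF => ?_
    -- reduction to parameters at most `N`
    rcases (pr u v b a).eq_empty_or_nonempty with he | ⟨p0, hp0⟩
    · unfold Sg
      rw [he, sum_empty, norm_zero]
      positivity
    have hu : u ≤ N := by
      have := mem_Ioc.1 (mem_filter.1 hp0).1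
      omega
    have ha : a ≤ N := mod_cases N b a hb p0 ((mem_Ioc.1 (mem_filter.1 hp0).1).2.trans hv) (mem_filter.1 hp0).2.2
    obtain ⟨φ, hφ, hφ1⟩ := hΦ3 F hF
    have ht : ((u, v, b, a), φ) ∈ T := by
      rw [hT, mem_product]
      refine ⟨?_, hφ⟩
      simp only [mem_product, mem_range]
      omega
    set V := Vg g u v b a with hVdef
    have hV0 : 0 ≤ V := sum_nonneg fun _ _ => by positivity
    have b1 : (∑ p ∈ pr u v b a, Complex.re (g p * φ p) * (jacobiSym (p : ℤ) q : ℝ)) ^ 2 ≤ L * (8 * k * V) := by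
      by_contra h
      push Not at h
      exact hcon.1 ⟨_, ht, mem_filter.2 ⟨hq.1, h⟩⟩
    have b2 : (∑ p ∈ pr u v b a, Complex.im (g p * φ p) * (jacobiSym (p : ℤ) q : ℝ)) ^ 2 ≤ L * (8 * k * V) := by
      by_contra h
      push Not at h
      exact hcon.2 ⟨_, ht, mem_filter.2 ⟨hq.1, h⟩⟩
    set W : ℂ := ∑ p ∈ pr u v b a, g p * φ p * ((jacobiSym (p : ℤ) q : ℤ) : ℂ) with hW
    have hWre : W.re = ∑ p ∈ pr u v b a, Complex.re (g p * φ p) * (jacobiSym (p : ℤ) q : ℝ) := by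
      rw [hW, Complex.re_sum]
      refine sum_congr rfl fun p _ => ?_
      rw [← Complex.ofReal_intCast, Complex.re_mul_ofReal]
    have hWim : W.im = ∑ p ∈ pr u v b a, Complex.im (g p * φ p) * (jacobiSym (p : ℤ) q : ℝ) := by
      rw [hW, Complex.im_sum]
      refine sum_congr rfl fun p _ => ?_
      rw [← Complex.ofReal_intCast, Complex.im_mul_ofReal]
    have hWn : ‖W‖ ^ 2 ≤ 16 * (k * L * V) := by
      rw [← Complex.normSq_eq_norm_sq, Complex.normSq_apply, ← sq, ← sq, hWre, hWim]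
      linarith
    have hdiff : ‖Sg g F q u v b a - W‖ ^ 2 ≤ k * L * V := by
      have e1 : Sg g F q u v b a - W =
          ∑ p ∈ pr u v b a, g p * ((jacobiSym (p : ℤ) q : ℤ) : ℂ) * (eF F p - φ p) := by
        unfold Sg
        rw [hW, ← sum_sub_distrib]
        refine sum_congr rfl fun p _ => ?_
        ring
      have e2 : ‖Sg g F q u v b a - W‖ ≤ ∑ p ∈ pr u v b a, ‖g p‖ * (1 / N) := by
        rw [e1]
        refine (norm_sum_le _ _).trans (sum_le_sum fun p hp => ?_)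
        rw [norm_mul, norm_mul]
        have h1 := hφ1 p (by
          have := (mem_Ioc.1 (mem_filter.1 hp).1).2
          omega)
        refine mul_le_mul ?_ h1 (norm_nonneg _) (norm_nonneg _)
        exact mul_le_of_le_one_right (norm_nonneg _) (norm_jac p q)
      have e3 : (∑ p ∈ pr u v b a, ‖g p‖ * (1 / N)) ^ 2 ≤ V := by
        have h1 : (∑ p ∈ pr u v b a, ‖g p‖ * (1 / N)) ^ 2 ≤
            ((pr u v b a).card : ℝ) * ∑ p ∈ pr u v b a, (‖g p‖ * (1 / N)) ^ 2 := sq_sum_le_card_mul_sum_sq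
        have h2 : ((pr u v b a).card : ℝ) ≤ N := by
          have h3 : (pr u v b a).card ≤ N := by
            refine (card_filter_le _ _).trans ?_
            rw [Nat.card_Ioc]
            omega
          exact_mod_cast h3
        have h3 : ∑ p ∈ pr u v b a, (‖g p‖ * (1 / (N : ℝ))) ^ 2 = V * (1 / N) ^ 2 := by
          rw [hVdef, Vg, sum_mul]
          exact sum_congr rfl fun p _ => mul_pow _ _ _
        rw [h3] at h1
        refine h1.trans ?_
        calc ((pr u v b a).card : ℝ) * (V * (1 / (N : ℝ)) ^ 2) ≤ N * (V * (1 / (N : ℝ)) ^ 2) :=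
              mul_le_mul_of_nonneg_right h2 (by positivity)
          _ = V * (1 / N) := by field_simp
          _ ≤ V * 1 := by
              refine mul_le_mul_of_nonneg_left ?_ hV0
              rw [div_le_one hN0]
              exact hNR
          _ = V := mul_one _
      have e4 : (0 : ℝ) ≤ ‖Sg g F q u v b a - W‖ := norm_nonneg _
      have e5 : V ≤ k * L * V := by
        have : (1 : ℝ) ≤ k * L := one_le_mul_of_one_le_of_one_le hkR hL1
        nlinarith
      exact (pow_le_pow_left₀ e4 e2 2).trans (e3.trans e5)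
    have hQ0 : 0 ≤ k * L * V := by positivity
    set Q := k * L * V with hQ
    have f1 : ‖W‖ ≤ 4 * √Q := by
      refine abs_le_of_sq_le_sq' ?_ (by positivity) |>.2
      rw [mul_pow, Real.sq_sqrt hQ0]
      linarith
    have f2 : ‖Sg g F q u v b a - W‖ ≤ √Q := Real.le_sqrt_of_sq_le hdiff
    have f3 : ‖Sg g F q u v b a‖ ≤ ‖Sg g F q u v b a - W‖ + ‖W‖ := by
      calc ‖Sg g F q u v b a‖ = ‖(Sg g F q u v b a - W) + W‖ := by rw [sub_add_cancel]
        _ ≤ _ := norm_add_le _ _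
    have f4 : 0 ≤ √Q := Real.sqrt_nonneg _
    linarith
  -- the number of the bad moduli
  have hTc : (T.card : ℝ) ≤ 16 * (N : ℝ) ^ 4 * (C * (N : ℝ) ^ D) := by
    rw [hT, card_product, card_product, card_product, card_product, card_range]
    have h1 : (N + 1) * ((N + 1) * ((N + 1) * (N + 1))) ≤ 16 * N ^ 4 := by
      have : N + 1 ≤ 2 * N := by omega
      calc (N + 1) * ((N + 1) * ((N + 1) * (N + 1))) ≤ (2 * N) * ((2 * N) * ((2 * N) * (2 * N))) := by gcongr
        _ = 16 * N ^ 4 := by ring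
    have h2 := Nat.mul_le_mul h1 hΦ1
    exact_mod_cast h2
  have hb : ∀ re : ℂ → ℝ, (∀ z, |re z| ≤ ‖z‖) → ((T.biUnion (bad re)).card : ℝ) ≤ T.card * (P / (N : ℝ) ^ E) := by
    intro re hre
    have h1 : ((T.biUnion (bad re)).card : ℝ) ≤ ∑ t ∈ T, ((bad re t).card : ℝ) := by
      exact_mod_cast card_biUnion_le
    refine h1.trans ?_
    rw [← nsmul_eq_mul, ← sum_const]
    refine sum_le_sum fun t ht => ?_
    rw [hT, mem_product] at ht
    simp only [mem_product, mem_range] at ht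
    have h2 := exc_real g t.2 (hΦ2 _ ht.2) re hre k N P t.1.1 t.1.2.1 t.1.2.2.1 t.1.2.2.2 hk hN1 (by omega) hP L hL0
    rwa [hLk] at h2
  have h1 : (((om P).filter fun q => ¬ GoodAt g d E k N q).card : ℝ) ≤
      T.card * (P / (N : ℝ) ^ E) + T.card * (P / (N : ℝ) ^ E) := by
    have h2 : (((om P).filter fun q => ¬ GoodAt g d E k N q).card : ℝ) ≤
        ((T.biUnion (bad Complex.re)).card : ℝ) + ((T.biUnion (bad Complex.im)).card : ℝ) := by
      exact_mod_cast (card_le_card hsub).trans (card_union_le _ _)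
    exact h2.trans (add_le_add (hb _ Complex.abs_re_le_norm) (hb _ Complex.abs_im_le_norm))
  refine h1.trans ?_
  have hNC' : 32 * (C : ℝ) ≤ N := by exact_mod_cast hNC
  have h3 : T.card * (P / (N : ℝ) ^ E) ≤ 16 * (N : ℝ) ^ 4 * (C * (N : ℝ) ^ D) * (P / (N : ℝ) ^ E) :=
    mul_le_mul_of_nonneg_right hTc (by positivity)
  have h4 : 16 * (N : ℝ) ^ 4 * (C * (N : ℝ) ^ D) * (P / (N : ℝ) ^ E) = (16 * C) / N * (P / (N : ℝ) ^ B) := by
    rw [hE, show D + B + 5 = D + B + 4 + 1 by ring, pow_succ, pow_add, pow_add]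
    field_simp
    ring
  rw [h4] at h3
  have h5 : (16 * (C : ℝ)) / N ≤ 1 / 2 := by
    rw [div_le_div_iff₀ hN0 two_pos]
    linarith
  have h6 : (16 * (C : ℝ)) / N * (P / (N : ℝ) ^ B) ≤ 1 / 2 * (P / (N : ℝ) ^ B) :=
    mul_le_mul_of_nonneg_right h5 (by positivity)
  linarith

end Pool.Agent.Q152.QH
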