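import Pool.Agent.Q152.QH.All

/-! # All scales for a general event -/

set_option autoImplicit false

namespace Pool.Agent.Q152.QH

open Finset Pool.Agent.Q152.QT

open Classical in
/-- all scales at once, for a general family of events -/
theorem scales_gen (c : ℕ) (hc : 1 ≤ c) {Γ : Type*} (Good : Γ → ℕ → ℕ → ℕ → Prop) (B N₀ : ℕ)
    (H : ∀ (γ : Γ) (P N k : ℕ), N₀ ≤ N → 1 ≤ k → 4 * N ^ (c * k) ≤ P →
      (((om P).filter fun q => ¬ Good γ k N q).card : ℝ) ≤ P / (N : ℝ) ^ (B + 3))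
    (γ : Γ) (P Y : ℕ) (hY2 : 2 ≤ Y) (hYN : N₀ ≤ Y) :
    (((om P).filter fun q => ¬ ∀ N k : ℕ, Y ≤ N → 1 ≤ k → k ≤ N → 4 * N ^ (c * k) ≤ P →
      Good γ k N q).card : ℝ) ≤ P / (Y : ℝ) ^ B := by
  have hY0 : (0 : ℝ) < Y := by
    have : 0 < Y := by omega
    exact_mod_cast this
  have hP0 : (0 : ℝ) ≤ P := Nat.cast_nonneg _
  set bad : ℕ × ℕ → Finset ℕ := fun t => (om P).filter fun q =>
    ¬ (4 * t.1 ^ (c * t.2) ≤ P → Good γ t.2 t.1 q) with hbad
  have hsub : ((om P).filter fun q => ¬ ∀ N k : ℕ, Y ≤ N → 1 ≤ k → k ≤ N → 4 * N ^ (c * k) ≤ P →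
      Good γ k N q) ⊆ (Icc Y P).biUnion fun N => (Icc 1 N).biUnion fun k => bad (N, k) := by
    intro q hq
    rw [mem_filter] at hq
    push Not at hq
    obtain ⟨hq1, N, k, h1, h2, h3, h4, h5⟩ := hq
    have hNP : N ≤ P := by
      refine le_trans ?_ h4
      have hck : 1 ≤ c * k := Nat.one_le_iff_ne_zero.2 (by positivity)
      calc N = N ^ 1 := (pow_one _).symm
        _ ≤ N ^ (c * k) := Nat.pow_le_pow_right (by omega) hck
        _ ≤ 4 * N ^ (c * k) := by omega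
    rw [mem_biUnion]
    refine ⟨N, mem_Icc.2 ⟨h1, hNP⟩, mem_biUnion.2 ⟨k, mem_Icc.2 ⟨h2, h3⟩, ?_⟩⟩
    rw [hbad]
    simp only [mem_filter]
    refine ⟨hq1, fun h => h5 (h h4)⟩
  have hone : ∀ N ∈ Icc Y P, ∀ k ∈ Icc 1 N, ((bad (N, k)).card : ℝ) ≤ P / (N : ℝ) ^ (B + 3) := by
    intro N hN k hk
    rw [mem_Icc] at hN hk
    by_cases h4 : 4 * N ^ (c * k) ≤ P
    · refine le_trans ?_ (H γ P N k (by omega) hk.1 h4)
      refine Nat.cast_le.2 (card_le_card fun q hq => ?_)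
      rw [hbad] at hq
      simp only [mem_filter] at hq ⊢
      exact ⟨hq.1, fun h => hq.2 fun _ => h⟩
    · have : bad (N, k) = ∅ := by
        rw [hbad]
        simp only
        rw [filter_eq_empty_iff]
        intro q _ h
        exact h fun h' => absurd h' h4
      rw [this, card_empty, Nat.cast_zero]
      positivity
  calc (((om P).filter fun q => ¬ ∀ N k : ℕ, Y ≤ N → 1 ≤ k → k ≤ N → 4 * N ^ (c * k) ≤ P →
      Good γ k N q).card : ℝ) ≤
        (((Icc Y P).biUnion fun N => (Icc 1 N).biUnion fun k => bad (N, k)).card : ℝ) :=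
          Nat.cast_le.2 (card_le_card hsub)
    _ ≤ ∑ N ∈ Icc Y P, (((Icc 1 N).biUnion fun k => bad (N, k)).card : ℝ) := by
          exact_mod_cast card_biUnion_le
    _ ≤ ∑ N ∈ Icc Y P, P / (Y : ℝ) ^ B * (1 / (N : ℝ) ^ 2) := by
          refine sum_le_sum fun N hN => ?_
          have hN' := mem_Icc.1 hN
          have hN0 : (0 : ℝ) < N := by
            have : 0 < N := by omega
            exact_mod_cast this
          have h1 : (((Icc 1 N).biUnion fun k => bad (N, k)).card : ℝ) ≤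
              ∑ k ∈ Icc 1 N, ((bad (N, k)).card : ℝ) := by
            exact_mod_cast card_biUnion_le
          refine h1.trans ((sum_le_sum fun k hk => hone N hN k hk).trans ?_)
          rw [sum_const, Nat.card_Icc, Nat.add_sub_cancel, nsmul_eq_mul]
          have h2 : (Y : ℝ) ^ B ≤ (N : ℝ) ^ B :=
            pow_le_pow_left₀ hY0.le (by exact_mod_cast hN'.1) _
          calc (N : ℝ) * (P / (N : ℝ) ^ (B + 3)) = P / (N : ℝ) ^ B * (1 / (N : ℝ) ^ 2) := by
                rw [pow_add]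
                field_simp
            _ ≤ P / (Y : ℝ) ^ B * (1 / (N : ℝ) ^ 2) := by
                refine mul_le_mul_of_nonneg_right ?_ (by positivity)
                exact div_le_div_of_nonneg_left hP0 (by positivity) h2
    _ = P / (Y : ℝ) ^ B * ∑ N ∈ Icc Y P, 1 / (N : ℝ) ^ 2 := by rw [mul_sum]
    _ ≤ P / (Y : ℝ) ^ B * 1 := mul_le_mul_of_nonneg_left (tail_sum Y P hY2) (by positivity)
    _ = P / (Y : ℝ) ^ B := mul_one _

open Classical in
/-- from natural to real heights -/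
theorem real_height (B : ℕ) (P : ℕ) (Y : ℝ) (hY : (2 : ℝ) ^ (B + 1) ≤ Y) (c : ℝ)
    (hc : c ≤ P / ((⌊Y⌋₊ : ℕ) : ℝ) ^ (B + 1)) : c ≤ P / Y ^ B := by
  have hY2 : 2 ≤ Y := by
    refine le_trans ?_ hY
    calc (2 : ℝ) = 2 ^ 1 := (pow_one _).symm
      _ ≤ 2 ^ (B + 1) := pow_le_pow_right₀ one_le_two (by omega)
  have hY0 : 0 < Y := by linarith
  have h1 : Y / 2 ≤ (⌊Y⌋₊ : ℕ) := by
    have := Nat.lt_floor_add_one Y
    linarith
  have h2 : (Y / 2) ^ (B + 1) ≤ ((⌊Y⌋₊ : ℕ) : ℝ) ^ (B + 1) := pow_le_pow_left₀ (by positivity) h1 _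
  refine hc.trans ?_
  have hP0 : (0 : ℝ) ≤ P := Nat.cast_nonneg _
  refine div_le_div_of_nonneg_left hP0 (by positivity) (le_trans ?_ h2)
  rw [div_pow, le_div_iff₀ (by positivity), pow_succ Y]
  exact mul_le_mul_of_nonneg_left hY (by positivity)

open Classical in
/-- the two uses: `k` fixed, and `k = ⌊log N⌋` -/
theorem two_uses (c : ℕ) (hc : 1 ≤ c) {Γ : Type*} (Good : Γ → ℕ → ℕ → ℕ → ℕ → Prop)
    (H : ∀ B : ℕ, ∃ E N₀ : ℕ, ∀ (γ : Γ) (P N k : ℕ), N₀ ≤ N → 1 ≤ k → 4 * N ^ (c * k) ≤ P →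
      (((om P).filter fun q => ¬ Good γ E k N q).card : ℝ) ≤ P / (N : ℝ) ^ B) (B : ℕ) :
    ∃ E : ℕ, (∀ K : ℕ, 1 ≤ K → ∃ Y₀ : ℝ, ∀ (γ : Γ) (P : ℕ) (Y : ℝ), Y₀ ≤ Y →
      ((((range (P + 1)).filter fun m => Odd m ∧ ¬ ∀ X : ℝ, Y ≤ X → X ^ (c * K + 1) ≤ P →
        Good γ E K ⌊X⌋₊ m).card : ℕ) : ℝ) ≤ P / Y ^ B) ∧
    (∃ Y₀ : ℝ, 16 ≤ Y₀ ∧ ∀ (γ : Γ) (P : ℕ) (Y : ℝ), Y₀ ≤ Y →
      ((((range (P + 1)).filter fun m => Odd m ∧ ¬ ∀ X : ℝ, Y ≤ X →
        ((c : ℝ) + 1) * Real.log X ^ 2 ≤ Real.log P →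
        Good γ E ⌊Real.log (⌊X⌋₊ : ℕ)⌋₊ ⌊X⌋₊ m).card : ℕ) : ℝ) ≤ P / Y ^ B) := by
  obtain ⟨E, N₀, H1⟩ := H (B + 1 + 3)
  refine ⟨E, fun K hK1' => ?_, ?_⟩
  · have hK1 : (1 : ℝ) ≤ K := by exact_mod_cast hK1'
    refine ⟨max (max ((N₀ : ℝ) + 1) (2 ^ (B + 1))) (K + 4), fun γ P Y hY => ?_⟩
    have a1 : (N₀ : ℝ) + 1 ≤ Y := (le_max_left _ _).trans ((le_max_left _ _).trans hY)
    have a2 : (2 : ℝ) ^ (B + 1) ≤ Y := (le_max_right _ _).trans ((le_max_left _ _).trans hY)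
    have a4 : (K : ℝ) + 4 ≤ Y := (le_max_right _ _).trans hY
    have a5 : N₀ ≤ ⌊Y⌋₊ := Nat.le_floor (by linarith)
    have a6 : 2 ≤ ⌊Y⌋₊ := Nat.le_floor (by push_cast; linarith)
    refine real_height B P Y a2 _ (le_trans (Nat.cast_le.2 (card_le_card fun m hm => ?_))
      (scales_gen c hc (fun γ k N q => Good γ E k N q) (B + 1) N₀ H1 γ P ⌊Y⌋₊ a6 a5))
    rw [mem_filter] at hm
    rw [mem_filter, om, mem_filter]
    refine ⟨⟨hm.1, hm.2.1⟩, fun hgood => hm.2.2 fun X hX hXP => ?_⟩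
    have hX1 : 1 ≤ X := by linarith
    have hX0 : 0 < X := by linarith
    have hNX : ((⌊X⌋₊ : ℕ) : ℝ) ≤ X := Nat.floor_le hX0.le
    have hNK : K ≤ ⌊X⌋₊ := Nat.le_floor (by linarith)
    have hP : 4 * ⌊X⌋₊ ^ (c * K) ≤ P := by
      have h1 : (4 : ℝ) * ((⌊X⌋₊ : ℕ) : ℝ) ^ (c * K) ≤ P := by
        calc (4 : ℝ) * ((⌊X⌋₊ : ℕ) : ℝ) ^ (c * K) ≤ X * X ^ (c * K) := by
              refine mul_le_mul (by linarith) (pow_le_pow_left₀ (Nat.cast_nonneg _) hNX _) (by positivity) hX0.le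
          _ = X ^ (c * K + 1) := by ring
          _ ≤ P := hXP
      exact_mod_cast h1
    exact hgood ⌊X⌋₊ K (Nat.floor_mono hX) hK1' hNK hP
  · refine ⟨max (max ((N₀ : ℝ) + 1) (2 ^ (B + 1))) 16, le_max_right _ _, fun γ P Y hY => ?_⟩
    have a1 : (N₀ : ℝ) + 1 ≤ Y := (le_max_left _ _).trans ((le_max_left _ _).trans hY)
    have a2 : (2 : ℝ) ^ (B + 1) ≤ Y := (le_max_right _ _).trans ((le_max_left _ _).trans hY)
    have a3 : 16 ≤ Y := (le_max_right _ _).trans hY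
    have a5 : N₀ ≤ ⌊Y⌋₊ := Nat.le_floor (by linarith)
    have a6 : 2 ≤ ⌊Y⌋₊ := Nat.le_floor (by push_cast; linarith)
    refine real_height B P Y a2 _ (le_trans (Nat.cast_le.2 (card_le_card fun m hm => ?_))
      (scales_gen c hc (fun γ k N q => Good γ E k N q) (B + 1) N₀ H1 γ P ⌊Y⌋₊ a6 a5))
    rw [mem_filter] at hm
    rw [mem_filter, om, mem_filter]
    refine ⟨⟨hm.1, hm.2.1⟩, fun hgood => hm.2.2 fun X hX hXP => ?_⟩
    have hX16 : 16 ≤ X := a3.trans hX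
    have hX1 : 1 ≤ X := by linarith
    have hX0 : 0 < X := by linarith
    set N := ⌊X⌋₊ with hN
    have hNX : (N : ℝ) ≤ X := Nat.floor_le hX0.le
    have hN16 : 16 ≤ N := Nat.le_floor (by exact_mod_cast hX16)
    have hN16' : (16 : ℝ) ≤ N := by exact_mod_cast hN16
    have hN0 : (0 : ℝ) < N := by linarith
    have hlN : 2 ≤ Real.log N := by
      have h1 : Real.log 16 ≤ Real.log N := Real.log_le_log (by norm_num) hN16'
      have h2 : Real.log 16 = 4 * Real.log 2 := by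
        rw [show (16 : ℝ) = 2 ^ 4 by norm_num, Real.log_pow]
        norm_num
      have := Real.log_two_gt_d9
      linarith
    have hlNX : Real.log N ≤ Real.log X := Real.log_le_log hN0 hNX
    set k := ⌊Real.log N⌋₊ with hk
    have hk1 : 1 ≤ k := Nat.le_floor (by push_cast; linarith)
    have hkl : (k : ℝ) ≤ Real.log N := Nat.floor_le (by linarith)
    have hkN : k ≤ N := by
      have h1 : Real.log N ≤ N := (Real.log_le_sub_one_of_pos hN0).trans (by linarith)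
      exact_mod_cast hkl.trans h1
    have hP : 4 * N ^ (c * k) ≤ P := by
      have hP0 : (0 : ℝ) < P := by
        rcases Nat.eq_zero_or_pos P with h | h
        · exfalso
          rw [h, Nat.cast_zero, Real.log_zero] at hXP
          have : 0 < Real.log X := by linarith
          have : 0 < ((c : ℝ) + 1) * Real.log X ^ 2 := by positivity
          linarith
        · exact_mod_cast h
      have h1 : (4 : ℝ) * (N : ℝ) ^ (c * k) ≤ P := by
        rw [← Real.log_le_log_iff (by positivity) hP0, Real.log_mul (by norm_num) (by positivity), Real.log_pow]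
        refine le_trans ?_ hXP
        have h2 : Real.log 4 ≤ 2 := by
          rw [show (4 : ℝ) = 2 ^ 2 by norm_num, Real.log_pow]
          have := Real.log_two_lt_d9
          push_cast
          linarith
        push_cast
        have h3 : (k : ℝ) * Real.log N ≤ Real.log X ^ 2 := by
          rw [sq]
          exact mul_le_mul (hkl.trans hlNX) hlNX (by linarith) (by linarith)
        have hc0 : (0 : ℝ) ≤ c := Nat.cast_nonneg _
        have h4 : (c : ℝ) * k * Real.log N ≤ c * Real.log X ^ 2 := by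
          rw [mul_assoc]
          exact mul_le_mul_of_nonneg_left h3 hc0
        have h5 : 2 ≤ Real.log X ^ 2 := by
          have : 2 ≤ Real.log X := hlN.trans hlNX
          nlinarith
        linarith
      exact_mod_cast h1
    exact hgood N k (Nat.floor_mono hX) hk1 hkN hP

/-- the factor `N^(E/k)` for `k = ⌊log N⌋` -/
theorem pow_floor (E : ℕ) (N : ℕ) (hN : 16 ≤ N) :
    1 ≤ ⌊Real.log N⌋₊ ∧ ((⌊Real.log N⌋₊ : ℕ) : ℝ) ≤ Real.log N ∧
      (N : ℝ) ^ ((E : ℝ) / (⌊Real.log N⌋₊ : ℕ)) ≤ Real.exp E ^ 2 := by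
  have hN16' : (16 : ℝ) ≤ N := by exact_mod_cast hN
  have hN0 : (0 : ℝ) < N := by linarith
  have hlN : 2 ≤ Real.log N := by
    have h1 : Real.log 16 ≤ Real.log N := Real.log_le_log (by norm_num) hN16'
    have h2 : Real.log 16 = 4 * Real.log 2 := by
      rw [show (16 : ℝ) = 2 ^ 4 by norm_num, Real.log_pow]
      norm_num
    have := Real.log_two_gt_d9
    linarith
  set k := ⌊Real.log N⌋₊ with hk
  have hk1 : 1 ≤ k := Nat.le_floor (by push_cast; linarith)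
  have hkR : (1 : ℝ) ≤ k := by exact_mod_cast hk1
  have hkl : (k : ℝ) ≤ Real.log N := Nat.floor_le (by linarith)
  have hkl2 : Real.log N / 2 ≤ k := by
    have := Nat.lt_floor_add_one (Real.log N)
    rw [← hk] at this
    linarith
  refine ⟨hk1, hkl, ?_⟩
  rw [Real.rpow_def_of_pos hN0, ← Real.exp_nat_mul]
  refine Real.exp_le_exp.2 ?_
  push_cast
  rw [mul_div_assoc', div_le_iff₀ (by linarith)]
  have : (0 : ℝ) ≤ E := Nat.cast_nonneg _
  nlinarith

end Pool.Agent.Q152.QH
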